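import Mathlib

/-! Congruences which make some of the values of a family of linear forms composite. -/

set_option autoImplicit false

namespace Pool.Agent.Q51.EX

open Finset

/-- the value of the form `f` at `n` -/
def v (f : ℕ × ℕ) (n : ℕ) : ℕ := f.1 * n + f.2

theorem exists_root {q a b : ℕ} (hq : q.Prime) (ha : ¬ q ∣ a) : ∃ r : ℕ, q ∣ a * r + b := by
  have : Fact q.Prime := ⟨hq⟩
  have hD0 : (a : ZMod q) ≠ 0 := by
    rw [Ne, ZMod.natCast_eq_zero_iff]; exact ha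
  refine ⟨(-(b : ZMod q) / (a : ZMod q)).val, ?_⟩
  rw [← ZMod.natCast_eq_zero_iff]
  push_cast
  rw [ZMod.natCast_zmod_val]
  field_simp
  ring

theorem block (F E : Finset (ℕ × ℕ)) (ha : ∀ f ∈ F, 0 < f.1) (hEF : E ⊆ F)
    (hne : ∀ f ∈ F, ∀ g ∈ F, f ≠ g → f.1 * g.2 ≠ g.1 * f.2) :
    ∃ Q r : ℕ, 0 < Q ∧ (∀ f ∈ F, f ∉ E → ∃ q : ℕ, q.Prime ∧ q ∣ Q ∧ q ∣ v f r) ∧
      ∀ q : ℕ, q.Prime → q ∣ Q → ∀ f ∈ E, ¬ q ∣ v f r := by
  classical
  set Bd : ℕ := ∑ f ∈ F, ∑ g ∈ F, (f.1 * g.2 + g.1 * f.2 + f.1) with hBd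
  have hle : ∀ f ∈ F, ∀ g ∈ F, f.1 * g.2 + g.1 * f.2 + f.1 ≤ Bd := by
    intro f hf g hg
    calc f.1 * g.2 + g.1 * f.2 + f.1 ≤ ∑ g ∈ F, (f.1 * g.2 + g.1 * f.2 + f.1) :=
          single_le_sum (f := fun g => f.1 * g.2 + g.1 * f.2 + f.1) (fun _ _ => Nat.zero_le _) hg
      _ ≤ Bd := single_le_sum (f := fun f => ∑ g ∈ F, (f.1 * g.2 + g.1 * f.2 + f.1))
          (fun _ _ => Nat.zero_le _) hf
  set q : ℕ × ℕ → ℕ := fun f => Nat.nth Nat.Prime (Bd + Encodable.encode f) with hqd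
  have hqp : ∀ f, (q f).Prime := fun f => Nat.prime_nth_prime _
  have hqinj : Function.Injective q := by
    intro f g hfg
    have h1 := Nat.nth_injective Nat.infinite_setOfPred_prime hfg
    have h2 : Encodable.encode f = Encodable.encode g := by omega
    exact Encodable.encode_injective h2
  have hqB : ∀ f, Bd < q f := by
    intro f
    have := Nat.add_two_le_nth_prime (Bd + Encodable.encode f)
    simp only [hqd]
    omega
  have hz : ∀ f ∈ F, ∃ r : ℕ, q f ∣ f.1 * r + f.2 := by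
    intro f hf
    refine exists_root (hqp f) (fun h => ?_)
    have h1 := Nat.le_of_dvd (ha f hf) h
    have h2 := hqB f
    have h3 := hle f hf f hf
    omega
  choose! z hz using hz
  set U : Finset (ℕ × ℕ) := F \ E with hU
  have hpair : Set.Pairwise (U : Set (ℕ × ℕ)) (Function.onFun Nat.Coprime q) := by
    intro s _ t _ hst
    exact (Nat.coprime_primes (hqp s) (hqp t)).2 fun h => hst (hqinj h)
  obtain ⟨r, hr⟩ := Nat.chineseRemainderOfFinset z q U (fun t _ => (hqp t).ne_zero) hpair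
  have hrd : ∀ f ∈ U, q f ∣ v f r := by
    intro f hf
    have hfF : f ∈ F := (mem_sdiff.1 hf).1
    have h2 : v f r ≡ f.1 * z f + f.2 [MOD q f] := ((hr f hf).mul_left _).add_right _
    exact (h2.dvd_iff dvd_rfl).2 (hz f hfF)
  refine ⟨∏ f ∈ U, q f, r, prod_pos fun t _ => (hqp t).pos, ?_, ?_⟩
  · intro f hf hfE
    have hfU : f ∈ U := mem_sdiff.2 ⟨hf, hfE⟩
    exact ⟨q f, hqp f, dvd_prod_of_mem q hfU, hrd f hfU⟩
  · intro p hp hpQ g hg hd
    obtain ⟨f, hfU, hpf⟩ := (hp.prime.dvd_finsetProd_iff _).1 hpQ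
    have hpq : p = q f := (Nat.prime_dvd_prime_iff_eq hp (hqp f)).1 hpf
    subst hpq
    have hfF : f ∈ F := (mem_sdiff.1 hfU).1
    have hfE : f ∉ E := (mem_sdiff.1 hfU).2
    have hgF : g ∈ F := hEF hg
    have hfg : f ≠ g := fun h => hfE (h ▸ hg)
    have h1 := hrd f hfU
    have h2 : ((q f : ℕ) : ℤ) ∣ (f.1 : ℤ) * g.2 - g.1 * f.2 := by
      have h3 : ((q f : ℕ) : ℤ) ∣ (f.1 : ℤ) * (v g r : ℕ) := (Int.natCast_dvd_natCast.2 hd).mul_left _
      have h4 : ((q f : ℕ) : ℤ) ∣ (g.1 : ℤ) * (v f r : ℕ) := (Int.natCast_dvd_natCast.2 h1).mul_left _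
      have h5 := dvd_sub h3 h4
      have e1 : (f.1 : ℤ) * (v g r : ℕ) - g.1 * (v f r : ℕ) = (f.1 : ℤ) * g.2 - g.1 * f.2 := by
        unfold v
        push_cast
        ring
      rwa [e1] at h5
    have h3 := hle f hfF g hgF
    have h4 := hqB f
    have h5 : |(f.1 : ℤ) * g.2 - g.1 * f.2| < (q f : ℕ) := by
      have e1 : (0 : ℤ) ≤ (f.1 : ℤ) * g.2 := by positivity
      have e2 : (0 : ℤ) ≤ (g.1 : ℤ) * f.2 := by positivity
      have e3 : (f.1 : ℤ) * g.2 + g.1 * f.2 < (q f : ℕ) := by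
        have : f.1 * g.2 + g.1 * f.2 < q f := by omega
        exact_mod_cast this
      rw [abs_lt]
      constructor <;> linarith
    have h6 := Int.eq_zero_of_abs_lt_dvd h2 h5
    exact hne f hfF g hgF hfg (by
      have : (f.1 : ℤ) * g.2 = g.1 * f.2 := by linarith
      exact_mod_cast this)

end Pool.Agent.Q51.EX
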