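import Mathlib
import Pool.Agent.Q51.CP.Often
import Pool.Agent.Q51.EX.Block

/-! Exact patterns of primes in families of linear forms. -/

set_option autoImplicit false

namespace Pool.Agent.Q51.EX

open Finset Filter Pool.Agent.Q51.CP

/-- `M` of any `K` admissible forms are prime, at every scale -/
def DHLs (K M : ℕ) : Prop := ∀ (a b : Fin K → ℕ), (∀ i, 1 ≤ a i) →
  (∀ i j, i ≠ j → a i * b j ≠ a j * b i) →
  (∀ p : ℕ, p.Prime → ∃ n : ℕ, ∀ i, ¬ p ∣ a i * n + b i) → ∀ ε : ℝ, 0 < ε →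
  ∀ᶠ x : ℝ in atTop, x ^ (1 - ε) ≤ (Set.ncard {n : ℕ | 1 ≤ n ∧ (n : ℝ) ≤ x ∧
    M ≤ Set.ncard {i : Fin K | (a i * n + b i).Prime}} : ℝ)

theorem growth (Q : ℕ) (hQ : 0 < Q) (ε : ℝ) (hε : 0 < ε) (hε1 : ε ≤ 1) :
    ∀ᶠ x : ℝ in atTop, x ^ (1 - ε) + (Q + 1) ≤ (x / (2 * Q)) ^ (1 - ε / 2) := by
  have hQ' : (1 : ℝ) ≤ Q := by exact_mod_cast hQ
  have h2 : Tendsto (fun x : ℝ => x ^ (ε / 2)) atTop atTop := tendsto_rpow_atTop (by positivity)
  have h3 : Tendsto (fun x : ℝ => x ^ (1 - ε / 2)) atTop atTop := tendsto_rpow_atTop (by linarith)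
  filter_upwards [h2.eventually_ge_atTop (4 * Q), h3.eventually_ge_atTop (4 * Q * (Q + 1)),
    eventually_ge_atTop (1 : ℝ)] with x hx1 hx2 hx3
  have hx0 : 0 < x := by linarith
  have h4 : x ^ (1 - ε / 2) = x ^ (ε / 2) * x ^ (1 - ε) := by
    rw [← Real.rpow_add hx0]
    congr 1
    ring
  have h5 : x ^ (1 - ε / 2) / (2 * Q) ≤ (x / (2 * Q)) ^ (1 - ε / 2) := by
    rw [Real.div_rpow hx0.le (by positivity)]
    apply div_le_div_of_nonneg_left (by positivity) (by positivity)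
    calc (2 * (Q : ℝ)) ^ (1 - ε / 2) ≤ (2 * (Q : ℝ)) ^ (1 : ℝ) :=
          Real.rpow_le_rpow_of_exponent_le (by linarith) (by linarith)
      _ = 2 * Q := Real.rpow_one _
  refine le_trans ?_ h5
  rw [le_div_iff₀ (by positivity)]
  have h6 : 4 * Q * x ^ (1 - ε) ≤ x ^ (1 - ε / 2) := by
    rw [h4]
    exact mul_le_mul_of_nonneg_right hx1 (by positivity)
  nlinarith

/-- the exact form for a finite family of forms, at every scale -/
theorem gen {K M : ℕ} (hD : DHLs K M) (F E : Finset (ℕ × ℕ)) (ha : ∀ f ∈ F, 0 < f.1) (hEF : E ⊆ F)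
    (hE : E.card = K) (hne : ∀ f ∈ F, ∀ g ∈ F, f ≠ g → f.1 * g.2 ≠ g.1 * f.2)
    (hloc : ∀ p : ℕ, p.Prime → ∃ n : ℕ, ∀ f ∈ E, ¬ p ∣ v f n) (ε : ℝ) (hε : 0 < ε) :
    ∀ᶠ x : ℝ in atTop, x ^ (1 - ε) ≤ (Set.ncard {n : ℕ | (n : ℝ) ≤ x ∧
      (∀ f ∈ F, f ∉ E → ¬ (v f n).Prime) ∧ M ≤ (E.filter (fun f => (v f n).Prime)).card} : ℝ) := by
  classical
  obtain ⟨Q, r, hQ0, hb1, hb2⟩ := block F E ha hEF hne
  let e := E.equivFinOfCardEq hE
  set ε' : ℝ := min ε 1 with hε'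
  have hε'0 : 0 < ε' := lt_min hε one_pos
  have hε'1 : ε' ≤ 1 := min_le_right _ _
  have key := hD (fun i => (e.symm i).1.1 * Q) (fun i => v (e.symm i).1 r)
    (fun i => Nat.mul_pos (ha _ (hEF (e.symm i).2)) hQ0)
    (fun i j hij h => by
      have h1 : (e.symm i).1 ≠ (e.symm j).1 := fun h => hij (e.symm.injective (Subtype.ext h))
      apply hne _ (hEF (e.symm i).2) _ (hEF (e.symm j).2) h1
      simp only [v] at h
      have h2 : Q * ((e.symm i).1.1 * (e.symm j).1.2) = Q * ((e.symm j).1.1 * (e.symm i).1.2) := by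
        have e1 : (e.symm i).1.1 * Q * ((e.symm j).1.1 * r + (e.symm j).1.2) =
            (e.symm i).1.1 * (e.symm j).1.1 * Q * r + Q * ((e.symm i).1.1 * (e.symm j).1.2) := by ring
        have e2 : (e.symm j).1.1 * Q * ((e.symm i).1.1 * r + (e.symm i).1.2) =
            (e.symm i).1.1 * (e.symm j).1.1 * Q * r + Q * ((e.symm j).1.1 * (e.symm i).1.2) := by ring
        rw [e1, e2] at h
        exact Nat.add_left_cancel h
      exact Nat.eq_of_mul_eq_mul_left hQ0 h2)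
    (fun p hp => by
      by_cases hpQ : p ∣ Q
      · refine ⟨0, fun i hd => hb2 p hp hpQ _ (e.symm i).2 ?_⟩
        simpa using hd
      · obtain ⟨n₀, hn₀⟩ := hloc p hp
        have : Fact p.Prime := ⟨hp⟩
        have hQp : (Q : ZMod p) ≠ 0 := by
          rw [Ne, ZMod.natCast_eq_zero_iff]; exact hpQ
        refine ⟨(((n₀ : ZMod p) - r) / (Q : ZMod p)).val, fun i hd => hn₀ _ (e.symm i).2 ?_⟩
        rw [← ZMod.natCast_eq_zero_iff] at hd ⊢
        rw [← hd]
        simp only [v]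
        push_cast
        rw [ZMod.natCast_zmod_val]
        field_simp
        ring) (ε' / 2) (by positivity)
  have hT : Tendsto (fun x : ℝ => x / (2 * Q)) atTop atTop :=
    tendsto_id.atTop_div_const (by positivity)
  filter_upwards [hT.eventually key, growth Q hQ0 ε' hε'0 hε'1, eventually_ge_atTop (1 : ℝ),
    eventually_ge_atTop (2 * (r : ℝ))] with x hx1 hx2 hx3 hx4
  have hQ' : (1 : ℝ) ≤ Q := by exact_mod_cast hQ0
  have h0 : x ^ (1 - ε) ≤ x ^ (1 - ε') :=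
    Real.rpow_le_rpow_of_exponent_le hx3 (by linarith [min_le_left ε 1])
  set A : Set ℕ := {n : ℕ | 1 ≤ n ∧ (n : ℝ) ≤ x / (2 * Q) ∧
    M ≤ Set.ncard {i : Fin K | ((e.symm i).1.1 * Q * n + v (e.symm i).1 r).Prime}} with hA
  set Bt : Set ℕ := {n : ℕ | (n : ℝ) ≤ x ∧
      (∀ f ∈ F, f ∉ E → ¬ (v f n).Prime) ∧ M ≤ (E.filter (fun f => (v f n).Prime)).card} with hB
  have hAfin : A.Finite := (Set.finite_Iic ⌊x / (2 * Q)⌋₊).subset fun n hn => Nat.le_floor hn.2.1
  have hBfin : Bt.Finite := (Set.finite_Iic ⌊x⌋₊).subset fun n hn => Nat.le_floor hn.1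
  have h1 : (fun m => Q * m + r) '' (A \ Set.Iic Q) ⊆ Bt := by
    rintro _ ⟨m, ⟨⟨hm1, hm2, hm3⟩, hmQ⟩, rfl⟩
    rw [Set.mem_Iic, not_le] at hmQ
    have hval : ∀ f : ℕ × ℕ, v f (Q * m + r) = f.1 * Q * m + v f r := by
      intro f
      unfold v
      ring
    refine ⟨?_, ?_, ?_⟩
    · push_cast
      have h2 : (Q : ℝ) * m ≤ x / 2 := by
        calc (Q : ℝ) * m ≤ Q * (x / (2 * Q)) := by gcongr
          _ = x / 2 := by field_simp
      linarith
    · intro f hf hfE hprime'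
      have hprime : (v f (Q * m + r)).Prime := hprime'
      obtain ⟨q, hq, hqQ, hqr⟩ := hb1 f hf hfE
      have h2 : q ∣ v f (Q * m + r) := by
        rw [hval]
        exact dvd_add ((hqQ.mul_left _).mul_right _) hqr
      have h3 := (Nat.prime_dvd_prime_iff_eq hq hprime).1 h2
      have h4 : q ≤ Q := Nat.le_of_dvd hQ0 hqQ
      have h5 : m ≤ v f (Q * m + r) := by
        rw [hval]
        have h6 : 1 ≤ f.1 * Q := Nat.mul_pos (ha f hf) hQ0
        nlinarith [Nat.zero_le (v f r)]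
      omega
    · refine hm3.trans ?_
      rw [← Set.ncard_coe_finset]
      refine Set.ncard_le_ncard_of_injOn (fun i => (e.symm i).1) ?_ ?_ (Finset.finite_toSet _)
      · intro i hi
        rw [Finset.mem_coe, Finset.mem_filter]
        refine ⟨(e.symm i).2, ?_⟩
        rw [hval]
        exact hi
      · intro i _ j _ hij
        exact e.symm.injective (Subtype.ext hij)
  have h2 := Set.ncard_le_ncard h1 hBfin
  rw [Set.ncard_image_of_injective _ (by
    intro m m' h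
    have h3 : Q * m = Q * m' := Nat.add_right_cancel h
    exact Nat.eq_of_mul_eq_mul_left hQ0 h3)] at h2
  have h3 : A.ncard ≤ (A \ Set.Iic Q).ncard + (Q + 1) := by
    have h4 : A ⊆ (A \ Set.Iic Q) ∪ ((Finset.range (Q + 1) : Finset ℕ) : Set ℕ) := by
      intro n hn
      by_cases h : n ≤ Q
      · exact Or.inr (by simpa [Finset.mem_range, Nat.lt_succ_iff] using h)
      · exact Or.inl ⟨hn, h⟩
    refine (Set.ncard_le_ncard h4 ((hAfin.sdiff).union (Finset.finite_toSet _))).trans ?_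
    refine (Set.ncard_union_le _ _).trans ?_
    rw [Set.ncard_coe_finset, Finset.card_range]
  have h4 : (A.ncard : ℝ) ≤ (Bt.ncard : ℝ) + (Q + 1) := by
    have : A.ncard ≤ Bt.ncard + (Q + 1) := by omega
    exact_mod_cast this
  linarith

end Pool.Agent.Q51.EX
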