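import Mathlib
import Pool.Agent.Q51.EX.Gen

/-! Exact patterns of primes in sequences of linear forms. -/

set_option autoImplicit false

namespace Pool.Agent.Q51.EX

open Finset Filter Pool.Agent.Q51.CP

/-- a sequence of linear forms, two by two not proportional, without a common obstruction -/
structure Seq (φ : ℕ → ℕ × ℕ) : Prop where
  pos : ∀ i, 0 < (φ i).1
  ne : ∀ i j, i ≠ j → (φ i).1 * (φ j).2 ≠ (φ j).1 * (φ i).2
  loc : ∀ p : ℕ, p.Prime → ∃ n : ℕ, ∀ i, ¬ p ∣ v (φ i) n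

theorem Seq.inj {φ : ℕ → ℕ × ℕ} (h : Seq φ) : Function.Injective φ := by
  intro i j hij
  by_contra hne
  exact h.ne i j hne (by rw [hij])

/-- `P` is the exact set of the indices of primes up to `W` -/
def Ex (φ : ℕ → ℕ × ℕ) (P : Finset ℕ) (W : ℕ) (n : ℕ) : Prop :=
  ∀ i ≤ W, ((v (φ i) n).Prime ↔ i ∈ P)

theorem seq_gen {K M : ℕ} (hD : DHLs K M) {φ : ℕ → ℕ × ℕ} (hφ : Seq φ) (E : Finset ℕ)
    (hE : E.card = K) (W : ℕ) (hW : ∀ i ∈ E, i ≤ W) (ε : ℝ) (hε : 0 < ε) :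
    ∀ᶠ x : ℝ in atTop, x ^ (1 - ε) ≤ (Set.ncard {n : ℕ | (n : ℝ) ≤ x ∧
      ∃ P ∈ E.powerset, M ≤ P.card ∧ Ex φ P W n} : ℝ) := by
  classical
  set F : Finset (ℕ × ℕ) := (range (W + 1)).image φ with hF
  set E' : Finset (ℕ × ℕ) := E.image φ with hE'
  have h1 := gen hD F E' (by
      intro f hf
      obtain ⟨i, -, rfl⟩ := mem_image.1 hf
      exact hφ.pos i)
    (by
      intro f hf
      obtain ⟨i, hi, rfl⟩ := mem_image.1 hf
      exact mem_image.2 ⟨i, mem_range.2 (by have := hW i hi; omega), rfl⟩)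
    (by rw [hE', card_image_of_injective _ hφ.inj, hE])
    (by
      intro f hf g hg hfg
      obtain ⟨i, -, rfl⟩ := mem_image.1 hf
      obtain ⟨j, -, rfl⟩ := mem_image.1 hg
      exact hφ.ne i j (fun h => hfg (by rw [h])))
    (by
      intro p hp
      obtain ⟨n, hn⟩ := hφ.loc p hp
      refine ⟨n, fun f hf => ?_⟩
      obtain ⟨i, -, rfl⟩ := mem_image.1 hf
      exact hn i) ε hε
  filter_upwards [h1] with x hx
  refine hx.trans ?_
  rw [Nat.cast_le]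
  refine Set.ncard_le_ncard ?_ (fin_le _ x)
  rintro n ⟨hn, hn1, hn2⟩
  refine ⟨hn, E.filter (fun i => (v (φ i) n).Prime), mem_powerset.2 (filter_subset _ _), ?_, ?_⟩
  · have h2 : E'.filter (fun f => (v f n).Prime) = (E.filter (fun i => (v (φ i) n).Prime)).image φ := by
      rw [hE', filter_image]
    rw [h2, card_image_of_injective _ hφ.inj] at hn2
    exact hn2
  · intro i hi
    rw [mem_filter]
    constructor
    · intro hp
      refine ⟨?_, hp⟩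
      by_contra hiE
      refine hn1 (φ i) (mem_image.2 ⟨i, mem_range.2 (by omega), rfl⟩) ?_ hp
      intro h
      obtain ⟨j, hj, hji⟩ := mem_image.1 h
      exact hiE (hφ.inj hji ▸ hj)
    · exact fun h => h.2

/-- pigeonhole at a scale -/
theorem pigeon {ι : Type*} (U : Finset ι) (Q : ι → ℕ → Prop) (ε : ℝ) (hε : 0 < ε)
    (h : ∀ᶠ x : ℝ in atTop, x ^ (1 - ε / 2) ≤ (Set.ncard {n : ℕ | (n : ℝ) ≤ x ∧ ∃ i ∈ U, Q i n} : ℝ)) :
    ∀ᶠ x : ℝ in atTop, ∃ i ∈ U, x ^ (1 - ε) ≤ (Set.ncard {n : ℕ | (n : ℝ) ≤ x ∧ Q i n} : ℝ) := by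
  classical
  have h2 : ∀ᶠ x : ℝ in atTop, U.card * x ^ (1 - ε) < x ^ (1 - ε / 2) := by
    have h3 : Tendsto (fun x : ℝ => x ^ (ε / 2)) atTop atTop := tendsto_rpow_atTop (by positivity)
    filter_upwards [h3.eventually_gt_atTop (U.card : ℝ), eventually_gt_atTop (0 : ℝ)] with x hx hx0
    have : x ^ (1 - ε / 2) = x ^ (ε / 2) * x ^ (1 - ε) := by
      rw [← Real.rpow_add hx0]
      congr 1
      ring
    rw [this]
    exact mul_lt_mul_of_pos_right hx (Real.rpow_pos_of_pos hx0 _)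
  filter_upwards [h, h2] with x hx hx2
  by_contra hcon
  push Not at hcon
  have hsub : {n : ℕ | (n : ℝ) ≤ x ∧ ∃ i ∈ U, Q i n} ⊆ ⋃ i ∈ U, {n : ℕ | (n : ℝ) ≤ x ∧ Q i n} := by
    rintro n ⟨hn, i, hi, hq⟩
    exact Set.mem_biUnion hi ⟨hn, hq⟩
  have h4 : Set.ncard {n : ℕ | (n : ℝ) ≤ x ∧ ∃ i ∈ U, Q i n} ≤
      ∑ i ∈ U, Set.ncard {n : ℕ | (n : ℝ) ≤ x ∧ Q i n} := by
    refine (Set.ncard_le_ncard hsub ?_).trans (Finset.set_ncard_biUnion_le U _)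
    exact Set.Finite.biUnion U.finite_toSet (fun i _ => fin_le (Q i) x)
  have h5 : (Set.ncard {n : ℕ | (n : ℝ) ≤ x ∧ ∃ i ∈ U, Q i n} : ℝ) ≤ U.card * x ^ (1 - ε) := by
    calc (Set.ncard {n : ℕ | (n : ℝ) ≤ x ∧ ∃ i ∈ U, Q i n} : ℝ) ≤
          ∑ i ∈ U, (Set.ncard {n : ℕ | (n : ℝ) ≤ x ∧ Q i n} : ℝ) := by exact_mod_cast h4
      _ ≤ ∑ i ∈ U, x ^ (1 - ε) := Finset.sum_le_sum (fun i hi => (hcon i hi).le)
      _ = U.card * x ^ (1 - ε) := by rw [Finset.sum_const, nsmul_eq_mul]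
  linarith

/-- exact patterns at every scale -/
theorem seq_scale {K M : ℕ} (hD : DHLs K M) {φ : ℕ → ℕ × ℕ} (hφ : Seq φ) (E : Finset ℕ)
    (hE : E.card = K) (W : ℕ) (ε : ℝ) (hε : 0 < ε) :
    ∀ᶠ x : ℝ in atTop, ∃ P ∈ E.powerset, M ≤ P.card ∧
      x ^ (1 - ε) ≤ (Set.ncard {n : ℕ | (n : ℝ) ≤ x ∧ Ex φ P W n} : ℝ) := by
  classical
  obtain ⟨W', hWW, hW⟩ : ∃ W' : ℕ, W ≤ W' ∧ ∀ i ∈ E, i ≤ W' :=
    ⟨max W (E.sup (fun i => i)), le_max_left _ _,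
      fun i hi => (le_sup (f := fun i => i) hi).trans (le_max_right _ _)⟩
  have h1 := pigeon E.powerset (fun P n => M ≤ P.card ∧ Ex φ P W' n) ε hε
    (seq_gen hD hφ E hE W' hW (ε / 2) (by positivity))
  filter_upwards [h1, eventually_gt_atTop (0 : ℝ)] with x hx hx0
  obtain ⟨P, hP, h2⟩ := hx
  have hne : {n : ℕ | (n : ℝ) ≤ x ∧ M ≤ P.card ∧ Ex φ P W' n}.Nonempty := by
    rw [Set.nonempty_iff_ne_empty]
    intro h
    rw [h, Set.ncard_empty] at h2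
    have := Real.rpow_pos_of_pos hx0 (1 - ε)
    push_cast at h2
    linarith
  obtain ⟨n₀, -, hMP, -⟩ := hne
  refine ⟨P, hP, hMP, h2.trans ?_⟩
  rw [Nat.cast_le]
  refine Set.ncard_le_ncard ?_ (fin_le _ x)
  rintro n ⟨hn, -, hn2⟩
  exact ⟨hn, fun i hi => hn2 i (hi.trans hWW)⟩

/-- a fixed exact pattern -/
theorem seq_fixed {K M : ℕ} (hD : DHLs K M) {φ : ℕ → ℕ × ℕ} (hφ : Seq φ) (E : Finset ℕ)
    (hE : E.card = K) : ∃ P ⊆ E, M ≤ P.card ∧ ∀ W : ℕ, Often (Ex φ P W) := by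
  classical
  have h1 : ∀ P : Finset ℕ, ∃ W : ℕ, (M ≤ P.card ∧ ∀ W' : ℕ, Often (Ex φ P W')) ∨
      (M ≤ P.card → ¬ Often (Ex φ P W)) := by
    intro P
    by_cases hM : M ≤ P.card ∧ ∀ W' : ℕ, Often (Ex φ P W')
    · exact ⟨0, Or.inl hM⟩
    · rw [not_and] at hM
      by_cases hM2 : M ≤ P.card
      · obtain ⟨W, hW⟩ := not_forall.1 (hM hM2)
        exact ⟨W, Or.inr fun _ => hW⟩
      · exact ⟨0, Or.inr fun h => absurd h hM2⟩
  choose w hw using h1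
  obtain ⟨W, hW, hW2⟩ : ∃ W : ℕ, (∀ i ∈ E, i ≤ W) ∧ ∀ P ∈ E.powerset, w P ≤ W := by
    refine ⟨max (E.sup (fun i => i)) (E.powerset.sup w), fun i hi => ?_, fun P hP => ?_⟩
    · exact (le_sup (f := fun i => i) hi).trans (le_max_left _ _)
    · exact (le_sup (f := w) hP).trans (le_max_right _ _)
  have h2 : Often (fun n => ∃ P ∈ E.powerset, M ≤ P.card ∧ Ex φ P W n) := by
    intro ε hε
    exact (seq_gen hD hφ E hE W hW ε hε).frequently
  have h2' := often_union (P := fun n => ∃ P ∈ E.powerset, M ≤ P.card ∧ Ex φ P W n) E.powerset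
    (Q := fun P n => M ≤ P.card ∧ Ex φ P W n)
    (fun n hn => hn) h2
  obtain ⟨P, hP, h3⟩ := h2'
  have h5 := h3.exists
  obtain ⟨n₀, h6⟩ := h5
  have hM := h6.1
  rcases hw P with h4 | h4
  · exact ⟨P, mem_powerset.1 hP, h4⟩
  · refine absurd ?_ (h4 hM)
    refine h3.mono ?_
    intro n hn i hi
    exact hn.2 i (hi.trans (hW2 P hP))

end Pool.Agent.Q51.EX
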