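import Mathlib
import Pool.Agent.Q51.EX.Seq
import Pool.Agent.Q51.CP.Ramsey

/-! Consecutive primes in orbits: cliques. -/

set_option autoImplicit false

namespace Pool.Agent.Q51.EX

open Finset Filter Pool.Agent.Q51.CP

/-- the terms `0` and `d` are consecutive primes of the sequence -/
def Gap (φ : ℕ → ℕ × ℕ) (d m : ℕ) : Prop :=
  (v (φ 0) m).Prime ∧ (v (φ d) m).Prime ∧ ∀ l, 0 < l → l < d → ¬ (v (φ l) m).Prime

theorem pair_gap (hD : DHLs 45 2) {φ : ℕ → ℕ × ℕ} (hφ : Seq φ) (τ : ℕ → ℕ → ℕ)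
    (hinj : ∀ i, Function.Injective (τ i)) (C : ℕ → ℕ) (hC : ∀ i n, τ i n ≤ C i * (n + 1))
    (hτ : ∀ i j n, v (φ (i + j)) n = v (φ j) (τ i n)) (S : Finset ℕ) (hS : S.card = 45)
    (ε : ℝ) (hε : 0 < ε) :
    ∀ᶠ x : ℝ in atTop, ∃ s ∈ S, ∃ t ∈ S, s < t ∧
      x ^ (1 - ε) ≤ (Set.ncard {m : ℕ | (m : ℝ) ≤ x ∧ Gap φ (t - s) m} : ℝ) := by
  classical
  set ε' : ℝ := min ε 1 with hε'
  have hε'0 : 0 < ε' := lt_min hε one_pos
  have hε'1 : ε' ≤ 1 := min_le_right _ _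
  obtain ⟨C₀, hC0, hC1⟩ : ∃ C₀ : ℕ, 0 < C₀ ∧ ∀ s ∈ S, C s ≤ C₀ :=
    ⟨S.sup C + 1, by omega, fun s hs => (le_sup (f := C) hs).trans (by omega)⟩
  obtain ⟨W, hW⟩ : ∃ W : ℕ, ∀ i ∈ S, i ≤ W :=
    ⟨S.sup (fun i => i), fun i hi => le_sup (f := fun i => i) hi⟩
  have key := seq_scale hD hφ S hS W (ε' / 2) (by positivity)
  have hT : Tendsto (fun x : ℝ => x / (2 * C₀)) atTop atTop :=
    tendsto_id.atTop_div_const (by positivity)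
  filter_upwards [hT.eventually key, growth C₀ hC0 ε' hε'0 hε'1, eventually_ge_atTop (1 : ℝ),
    eventually_ge_atTop (2 * (C₀ : ℝ))] with x hx1 hx2 hx3 hx4
  obtain ⟨P, hP, hP2, hP3⟩ := hx1
  have hPS := mem_powerset.1 hP
  have hPne : P.Nonempty := card_pos.1 (by omega)
  set s := P.min' hPne with hs
  have hsP : s ∈ P := min'_mem _ _
  have hP'ne : (P.erase s).Nonempty := card_pos.1 (by rw [card_erase_of_mem hsP]; omega)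
  set t := (P.erase s).min' hP'ne with ht
  have htP' : t ∈ P.erase s := min'_mem _ _
  have htP : t ∈ P := mem_of_mem_erase htP'
  have hst : s < t := lt_of_le_of_ne (min'_le _ _ htP) (ne_of_mem_erase htP').symm
  have hbet : ∀ l, s < l → l < t → l ∉ P := by
    intro l h1 h2 h3
    have := min'_le (P.erase s) l (mem_erase.2 ⟨by omega, h3⟩)
    omega
  refine ⟨s, hPS hsP, t, hPS htP, hst, ?_⟩
  have hCpos : (0 : ℝ) < C₀ := by exact_mod_cast hC0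
  have h1 : (τ s) '' {n : ℕ | (n : ℝ) ≤ x / (2 * C₀) ∧ Ex φ P W n} ⊆
      {m : ℕ | (m : ℝ) ≤ x ∧ Gap φ (t - s) m} := by
    rintro _ ⟨n, ⟨hn, hex⟩, rfl⟩
    refine ⟨?_, ?_, ?_, ?_⟩
    · have h2 : τ s n ≤ C₀ * (n + 1) := (hC s n).trans (Nat.mul_le_mul_right _ (hC1 s (hPS hsP)))
      calc ((τ s n : ℕ) : ℝ) ≤ ((C₀ * (n + 1) : ℕ) : ℝ) := by exact_mod_cast h2
        _ = C₀ * n + C₀ := by push_cast; ring
        _ ≤ C₀ * (x / (2 * C₀)) + C₀ := by gcongr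
        _ = x / 2 + C₀ := by field_simp
        _ ≤ x := by linarith
    · have := (hex s (hW s (hPS hsP))).2 hsP
      rwa [← hτ s 0 n, add_zero]
    · have := (hex t (hW t (hPS htP))).2 htP
      rw [← hτ s (t - s) n]
      rwa [show s + (t - s) = t by omega]
    · intro l hl0 hl hprime
      rw [← hτ s l n] at hprime
      have h3 : s + l ≤ W := (by omega : s + l ≤ t).trans (hW t (hPS htP))
      exact hbet (s + l) (by omega) (by omega) ((hex (s + l) h3).1 hprime)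
  have h2 := Set.ncard_le_ncard h1 (fin_le _ x)
  rw [Set.ncard_image_of_injective _ (hinj s)] at h2
  have h0 : x ^ (1 - ε) ≤ x ^ (1 - ε') :=
    Real.rpow_le_rpow_of_exponent_le hx3 (by linarith [min_le_left ε 1])
  have h3 : (Set.ncard {n : ℕ | (n : ℝ) ≤ x / (2 * C₀) ∧ Ex φ P W n} : ℝ) ≤
      (Set.ncard {m : ℕ | (m : ℝ) ≤ x ∧ Gap φ (t - s) m} : ℝ) := by exact_mod_cast h2
  linarith

/-- a fixed set from sets at every scale -/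
theorem fixed_of_scale {α : Type*} (V : Finset α) (c : ℝ) (N : α → α → ℝ → ℕ)
    (h1 : ∀ ε : ℝ, 0 < ε → ∀ᶠ x : ℝ in atTop, ∃ W ⊆ V, c ≤ (W.card : ℝ) ∧
      ∀ f ∈ W, ∀ g ∈ W, f ≠ g → x ^ (1 - ε) ≤ (N f g x : ℝ)) :
    ∃ W ⊆ V, c ≤ (W.card : ℝ) ∧ ∀ ε : ℝ, 0 < ε → ∃ᶠ x : ℝ in atTop,
      ∀ f ∈ W, ∀ g ∈ W, f ≠ g → x ^ (1 - ε) ≤ (N f g x : ℝ) := by
  classical
  by_contra hcon
  push Not at hcon
  have h2 : ∀ W ∈ V.powerset, ∃ ε : ℝ, 0 < ε ∧ (c ≤ (W.card : ℝ) →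
      ∀ᶠ x : ℝ in atTop, ∃ f ∈ W, ∃ g ∈ W, f ≠ g ∧ (N f g x : ℝ) < x ^ (1 - ε)) := by
    intro W hW
    by_cases hc : c ≤ (W.card : ℝ)
    · obtain ⟨ε, hε, h3⟩ := hcon W (Finset.mem_powerset.1 hW) hc
      exact ⟨ε, hε, fun _ => h3⟩
    · exact ⟨1, one_pos, fun h => absurd h hc⟩
  choose! ε hε h3 using h2
  obtain ⟨W₀, hW₀, hmin⟩ := (V.powerset).exists_min_image ε ⟨∅, Finset.empty_mem_powerset V⟩
  have h4 : ∀ᶠ x : ℝ in atTop, ∀ W ∈ V.powerset, c ≤ (W.card : ℝ) →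
      ∃ f ∈ W, ∃ g ∈ W, f ≠ g ∧ (N f g x : ℝ) < x ^ (1 - ε W) := by
    rw [Filter.eventually_all_finset]
    intro W hW
    by_cases hc : c ≤ (W.card : ℝ)
    · filter_upwards [h3 W hW hc] with x hx _
      exact hx
    · exact Filter.Eventually.of_forall fun x h => absurd h hc
  obtain ⟨x, ⟨W, hW, hc, hall⟩, hx2, hx1⟩ :=
    ((h1 (ε W₀) (hε W₀ hW₀)).and (h4.and (eventually_ge_atTop (1 : ℝ)))).exists
  obtain ⟨f, hf, g, hg, hfg, hlt⟩ := hx2 W (Finset.mem_powerset.2 hW) hc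
  have h5 := hall f hf g hg hfg
  have h6 : x ^ (1 - ε W) ≤ x ^ (1 - ε W₀) :=
    Real.rpow_le_rpow_of_exponent_le hx1 (by linarith [hmin W (Finset.mem_powerset.2 hW)])
  linarith

/-- **Cliques of times** -/
theorem cliques (hD : DHLs 45 2) {φ : ℕ → ℕ × ℕ} (hφ : Seq φ) (τ : ℕ → ℕ → ℕ)
    (hinj : ∀ i, Function.Injective (τ i)) (C : ℕ → ℕ) (hC : ∀ i n, τ i n ≤ C i * (n + 1))
    (hτ : ∀ i j n, v (φ (i + j)) n = v (φ j) (τ i n)) (E : Finset ℕ) :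
    (∀ ε : ℝ, 0 < ε → ∀ᶠ x : ℝ in atTop, ∃ B ⊆ E,
      17 * (E.card : ℝ) ^ (1 / 44 : ℝ) - 44 ≤ (B.card : ℝ) ∧
      ∀ s ∈ B, ∀ t ∈ B, s < t →
        x ^ (1 - ε) ≤ (Set.ncard {m : ℕ | (m : ℝ) ≤ x ∧ Gap φ (t - s) m} : ℝ)) ∧
    ∃ B ⊆ E, 17 * (E.card : ℝ) ^ (1 / 44 : ℝ) - 44 ≤ (B.card : ℝ) ∧
      ∀ ε : ℝ, 0 < ε → ∃ᶠ x : ℝ in atTop, ∀ s ∈ B, ∀ t ∈ B, s < t →
        x ^ (1 - ε) ≤ (Set.ncard {m : ℕ | (m : ℝ) ≤ x ∧ Gap φ (t - s) m} : ℝ) := by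
  classical
  have h1 : ∀ ε : ℝ, 0 < ε → ∀ᶠ x : ℝ in atTop, ∃ B ⊆ E,
      17 * (E.card : ℝ) ^ (1 / 44 : ℝ) - 44 ≤ (B.card : ℝ) ∧
      ∀ s ∈ B, ∀ t ∈ B, s ≠ t →
        x ^ (1 - ε) ≤ (Set.ncard {m : ℕ | (m : ℝ) ≤ x ∧ Gap φ (max s t - min s t) m} : ℝ) := by
    intro ε hε
    have h2 : ∀ᶠ x : ℝ in atTop, ∀ S ∈ E.powersetCard 45, ∃ s ∈ S, ∃ t ∈ S, s < t ∧
        x ^ (1 - ε) ≤ (Set.ncard {m : ℕ | (m : ℝ) ≤ x ∧ Gap φ (t - s) m} : ℝ) := by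
      rw [Filter.eventually_all_finset]
      intro S hS
      rw [Finset.mem_powersetCard] at hS
      exact pair_gap hD hφ τ hinj C hC hτ S hS.2 ε hε
    filter_upwards [h2] with x hx
    exact Pool.Agent.Q51.CPR.clique45 (fun s t : ℕ => x ^ (1 - ε) ≤
        (Set.ncard {m : ℕ | (m : ℝ) ≤ x ∧ Gap φ (max s t - min s t) m} : ℝ)) (by
      intro s t hst
      rwa [max_comm, min_comm]) E
      (fun S hS hSc => by
        obtain ⟨s, hs, t, ht, hst, h3⟩ := hx S (Finset.mem_powersetCard.2 ⟨hS, hSc⟩)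
        refine ⟨s, hs, t, ht, hst.ne, ?_⟩
        rwa [max_eq_right hst.le, min_eq_left hst.le])
  constructor
  · intro ε hε
    filter_upwards [h1 ε hε] with x hx
    obtain ⟨B, hB, hBc, h2⟩ := hx
    refine ⟨B, hB, hBc, fun s hs t ht hst => ?_⟩
    have := h2 s hs t ht hst.ne
    rwa [max_eq_right hst.le, min_eq_left hst.le] at this
  · obtain ⟨B, hB, hBc, h2⟩ := fixed_of_scale E (17 * (E.card : ℝ) ^ (1 / 44 : ℝ) - 44)
      (fun s t x => Set.ncard {m : ℕ | (m : ℝ) ≤ x ∧ Gap φ (max s t - min s t) m}) h1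
    refine ⟨B, hB, hBc, fun ε hε => (h2 ε hε).mono fun x hx s hs t ht hst => ?_⟩
    have := hx s hs t ht hst.ne
    rwa [max_eq_right hst.le, min_eq_left hst.le] at this

end Pool.Agent.Q51.EX
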