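import Mathlib
import Pool.Agent.Q51.EX.Orb

/-! The sequences of forms of the Cunningham orbits. -/

set_option autoImplicit false

namespace Pool.Agent.Q51.EX

open Finset Filter Pool.Agent.Q51.CP

/-- first kind: `2 ^ t (n + 1) - 1` -/
def fst (t : ℕ) : ℕ × ℕ := (2 ^ t, 2 ^ t - 1)

/-- second kind, for the variable `n - 1`: `2 ^ t n + 1` -/
def snd (t : ℕ) : ℕ × ℕ := (2 ^ t, 1)

/-- both kinds: `2 ^ t (n + 1) - 1` for the index `2 t` and `2 ^ t (n + 1) + 1` for `2 t + 1` -/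
def bit (i : ℕ) : ℕ × ℕ := (2 ^ (i / 2), 2 ^ (i / 2) - 1 + 2 * (i % 2))

theorem v_fst (t n : ℕ) : v (fst t) n = 2 ^ t * (n + 1) - 1 := by
  have h : 1 ≤ 2 ^ t := Nat.one_le_two_pow
  simp only [v, fst]
  rw [mul_add, mul_one]
  omega

theorem v_snd (t n : ℕ) : v (snd t) n = 2 ^ t * n + 1 := rfl

theorem v_bit (t n : ℕ) (b : ℕ) (hb : b ≤ 1) : v (bit (2 * t + b)) n = 2 ^ t * (n + 1) - 1 + 2 * b := by
  have h : 1 ≤ 2 ^ t := Nat.one_le_two_pow
  have h1 : (2 * t + b) / 2 = t := by omega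
  have h2 : (2 * t + b) % 2 = b := by omega
  simp only [v, bit, h1, h2]
  rw [mul_add, mul_one]
  omega

theorem seq_fst : Seq fst where
  pos := fun i => by simp [fst]
  ne := by
    intro i j hij h
    simp only [fst] at h
    have h1 : 1 ≤ 2 ^ i := Nat.one_le_two_pow
    have h2 : 1 ≤ 2 ^ j := Nat.one_le_two_pow
    zify [h1, h2] at h
    have h3 : (2 : ℤ) ^ i = 2 ^ j := by linarith
    have h4 : 2 ^ i = 2 ^ j := by exact_mod_cast h3
    exact hij (Nat.pow_right_injective le_rfl h4)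
  loc := by
    intro p hp
    refine ⟨p - 1, fun i hd => ?_⟩
    rw [v_fst, Nat.sub_add_cancel hp.one_lt.le] at hd
    have h1 : p ∣ 2 ^ i * p := Dvd.intro_left _ rfl
    have h2 : 1 ≤ 2 ^ i * p := Nat.mul_pos (by positivity) hp.pos
    have h3 := (Nat.dvd_sub h1 hd)
    rw [Nat.sub_sub_self h2] at h3
    exact hp.one_lt.ne' (Nat.dvd_one.1 h3)

theorem seq_snd : Seq snd where
  pos := fun i => by simp [snd]
  ne := by
    intro i j hij h
    simp only [snd, mul_one] at h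
    exact hij (Nat.pow_right_injective le_rfl h)
  loc := by
    intro p hp
    refine ⟨0, fun i hd => ?_⟩
    rw [v_snd, mul_zero, zero_add] at hd
    exact hp.one_lt.ne' (Nat.dvd_one.1 hd)

theorem seq_bit : Seq bit where
  pos := fun i => by simp [bit]
  ne := by
    intro i j hij h
    simp only [bit] at h
    have h1 : 1 ≤ 2 ^ (i / 2) := Nat.one_le_two_pow
    have h2 : 1 ≤ 2 ^ (j / 2) := Nat.one_le_two_pow
    have hi : i % 2 = 0 ∨ i % 2 = 1 := by omega
    have hj : j % 2 = 0 ∨ j % 2 = 1 := by omega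
    have key : (i % 2 = j % 2 ∧ (2 : ℤ) ^ (i / 2) = 2 ^ (j / 2)) ∨
        (2 : ℤ) ^ (i / 2) = - 2 ^ (j / 2) := by
      rcases hi with hi | hi <;> rcases hj with hj | hj <;> rw [hi, hj] at h <;> zify [h1, h2] at h
      · left; exact ⟨by omega, by linarith⟩
      · right; linarith
      · right; linarith
      · left; exact ⟨by omega, by linarith⟩
    rcases key with ⟨hm, hk⟩ | hk
    · have h4 : 2 ^ (i / 2) = 2 ^ (j / 2) := by exact_mod_cast hk
      have h5 := Nat.pow_right_injective le_rfl h4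
      exact hij (by omega)
    · have : (0 : ℤ) < 2 ^ (i / 2) := by positivity
      have : (0 : ℤ) < 2 ^ (j / 2) := by positivity
      linarith
  loc := by
    intro p hp
    refine ⟨p - 1, fun i hd => ?_⟩
    have e1 : i = 2 * (i / 2) + i % 2 := by omega
    have hi : i % 2 = 0 ∨ i % 2 = 1 := by omega
    rw [e1, v_bit _ _ _ (by omega), Nat.sub_add_cancel hp.one_lt.le] at hd
    have h1 : p ∣ 2 ^ (i / 2) * p := Dvd.intro_left _ rfl
    have h2 : 1 ≤ 2 ^ (i / 2) * p := Nat.mul_pos (by positivity) hp.pos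
    rcases hi with hi | hi
    · rw [hi] at hd
      have h3 := (Nat.dvd_sub h1 hd)
      rw [mul_zero, add_zero, Nat.sub_sub_self h2] at h3
      exact hp.one_lt.ne' (Nat.dvd_one.1 h3)
    · rw [hi] at hd
      have h4 : 2 ^ (i / 2) * p - 1 + 2 * 1 = 2 ^ (i / 2) * p + 1 := by omega
      rw [h4] at hd
      have h3 := (Nat.dvd_add_right h1).1 hd
      exact hp.one_lt.ne' (Nat.dvd_one.1 h3)

/-- cliques for the orbits of the first kind, every scale -/
theorem cliques_fst (hD : DHLs 45 2) (E : Finset ℕ) (ε : ℝ) (hε : 0 < ε) :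
    ∀ᶠ x : ℝ in atTop, ∃ B ⊆ E, 17 * (E.card : ℝ) ^ (1 / 44 : ℝ) - 44 ≤ (B.card : ℝ) ∧
      ∀ s ∈ B, ∀ t ∈ B, s < t → x ^ (1 - ε) ≤ (Set.ncard {p : ℕ | (p : ℝ) ≤ x ∧ p.Prime ∧
        (2 ^ (t - s) * (p + 1) - 1).Prime ∧
        ∀ l, 0 < l → l < t - s → ¬ (2 ^ l * (p + 1) - 1).Prime} : ℝ) := by
  have h := (cliques hD seq_fst (fun i n => v (fst i) n) (by
      intro i m n hmn
      simp only [v, fst] at hmn
      exact Nat.eq_of_mul_eq_mul_left (by positivity) (Nat.add_right_cancel hmn))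
    (fun i => 2 ^ i) (by
      intro i n
      rw [v_fst]
      exact Nat.sub_le _ _)
    (by
      intro i j n
      rw [v_fst, v_fst, v_fst]
      have h1 : 1 ≤ 2 ^ i * (n + 1) := Nat.one_le_iff_ne_zero.2 (by positivity)
      rw [Nat.sub_add_cancel h1, pow_add]
      ring_nf) E).1 ε hε
  filter_upwards [h] with x hx
  obtain ⟨B, hB, hBc, h2⟩ := hx
  refine ⟨B, hB, hBc, fun s hs t ht hst => (h2 s hs t ht hst).trans ?_⟩
  rw [Nat.cast_le]
  refine Set.ncard_le_ncard ?_ (fin_le _ x)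
  rintro p ⟨hp, h3, h4, h5⟩
  have e0 : v (fst 0) p = p := by simp [v, fst]
  rw [e0] at h3
  rw [v_fst] at h4
  exact ⟨hp, h3, h4, fun l hl0 hl => by rw [← v_fst]; exact h5 l hl0 hl⟩

/-- cliques for the orbits of the second kind, every scale -/
theorem cliques_snd (hD : DHLs 45 2) (E : Finset ℕ) (ε : ℝ) (hε : 0 < ε) :
    ∀ᶠ x : ℝ in atTop, ∃ B ⊆ E, 17 * (E.card : ℝ) ^ (1 / 44 : ℝ) - 44 ≤ (B.card : ℝ) ∧
      ∀ s ∈ B, ∀ t ∈ B, s < t → x ^ (1 - ε) ≤ (Set.ncard {p : ℕ | (p : ℝ) ≤ x ∧ p.Prime ∧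
        (2 ^ (t - s) * (p - 1) + 1).Prime ∧
        ∀ l, 0 < l → l < t - s → ¬ (2 ^ l * (p - 1) + 1).Prime} : ℝ) := by
  set ε' : ℝ := min ε 1 with hε'
  have hε'0 : 0 < ε' := lt_min hε one_pos
  have hε'1 : ε' ≤ 1 := min_le_right _ _
  have h := (cliques hD seq_snd (fun i n => 2 ^ i * n) (by
      intro i m n hmn
      exact Nat.eq_of_mul_eq_mul_left (by positivity) hmn)
    (fun i => 2 ^ i) (by
      intro i n
      exact Nat.mul_le_mul_left _ (Nat.le_succ n))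
    (by
      intro i j n
      rw [v_snd, v_snd, pow_add]
      ring) E).1 (ε' / 2) (by positivity)
  have hT : Tendsto (fun x : ℝ => x / (2 * (1 : ℕ))) atTop atTop :=
    tendsto_id.atTop_div_const (by positivity)
  filter_upwards [hT.eventually h, growth 1 one_pos ε' hε'0 hε'1, eventually_ge_atTop (2 : ℝ)] with x hx hx2 hx3
  obtain ⟨B, hB, hBc, h2⟩ := hx
  refine ⟨B, hB, hBc, fun s hs t ht hst => ?_⟩
  have h0 : x ^ (1 - ε) ≤ x ^ (1 - ε') :=
    Real.rpow_le_rpow_of_exponent_le (by linarith) (by linarith [min_le_left ε 1])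
  have h3 := h2 s hs t ht hst
  have h4 : (fun m => m + 1) '' {m : ℕ | (m : ℝ) ≤ x / (2 * (1 : ℕ)) ∧ Gap snd (t - s) m} ⊆
      {p : ℕ | (p : ℝ) ≤ x ∧ p.Prime ∧ (2 ^ (t - s) * (p - 1) + 1).Prime ∧
        ∀ l, 0 < l → l < t - s → ¬ (2 ^ l * (p - 1) + 1).Prime} := by
    rintro _ ⟨m, ⟨hm, h5, h6, h7⟩, rfl⟩
    have e0 : v (snd 0) m = m + 1 := by simp [v, snd]
    rw [e0] at h5
    rw [v_snd] at h6
    refine ⟨?_, h5, by simpa using h6, fun l hl0 hl => by
      have := h7 l hl0 hl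
      rw [v_snd] at this
      simpa using this⟩
    push_cast at hm ⊢
    linarith
  have h5 := Set.ncard_le_ncard h4 (fin_le _ x)
  rw [Set.ncard_image_of_injective _ (add_left_injective 1)] at h5
  have h6 : (Set.ncard {m : ℕ | (m : ℝ) ≤ x / (2 * (1 : ℕ)) ∧ Gap snd (t - s) m} : ℝ) ≤ _ :=
    Nat.cast_le.2 h5
  push_cast at hx2 h3 h6
  linarith

end Pool.Agent.Q51.EX
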