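import Mathlib
import Pool.Agent.Q51.EX.Fam

/-! Both kinds of Cunningham orbits at once. -/

set_option autoImplicit false

namespace Pool.Agent.Q51.EX

open Finset Filter Pool.Agent.Q51.CP

theorem bit_val (m i : ℕ) : v (bit i) m = 2 ^ (i / 2) * (m + 1) + 2 * (i % 2) - 1 := by
  have h : 1 ≤ 2 ^ (i / 2) := Nat.one_le_two_pow
  simp only [v, bit]
  rw [mul_add, mul_one]
  omega

/-- cliques without a shift -/
theorem cliques0 (hD : DHLs 45 2) {φ : ℕ → ℕ × ℕ} (hφ : Seq φ) (E : Finset ℕ) (ε : ℝ) (hε : 0 < ε) :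
    ∀ᶠ x : ℝ in atTop, ∃ B ⊆ E, 17 * (E.card : ℝ) ^ (1 / 44 : ℝ) - 44 ≤ (B.card : ℝ) ∧
      ∀ s ∈ B, ∀ t ∈ B, s < t → x ^ (1 - ε) ≤ (Set.ncard {n : ℕ | (n : ℝ) ≤ x ∧
        (v (φ s) n).Prime ∧ (v (φ t) n).Prime ∧
        ∀ l, s < l → l < t → ¬ (v (φ l) n).Prime} : ℝ) := by
  classical
  have h2 : ∀ᶠ x : ℝ in atTop, ∀ S ∈ E.powersetCard 45, ∃ s ∈ S, ∃ t ∈ S, s < t ∧
      x ^ (1 - ε) ≤ (Set.ncard {n : ℕ | (n : ℝ) ≤ x ∧ (v (φ s) n).Prime ∧ (v (φ t) n).Prime ∧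
        ∀ l, s < l → l < t → ¬ (v (φ l) n).Prime} : ℝ) := by
    rw [Filter.eventually_all_finset]
    intro S hS
    rw [Finset.mem_powersetCard] at hS
    obtain ⟨W, hW⟩ : ∃ W : ℕ, ∀ i ∈ S, i ≤ W :=
      ⟨S.sup (fun i => i), fun i hi => le_sup (f := fun i => i) hi⟩
    filter_upwards [seq_scale hD hφ S hS.2 W ε hε] with x hx
    obtain ⟨P, hP, hP2, hP3⟩ := hx
    have hPS := mem_powerset.1 hP
    have hPne : P.Nonempty := card_pos.1 (by omega)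
    set s := P.min' hPne with hs
    have hsP : s ∈ P := min'_mem _ _
    have hP'ne : (P.erase s).Nonempty := card_pos.1 (by rw [card_erase_of_mem hsP]; omega)
    set t := (P.erase s).min' hP'ne with ht
    have htP' : t ∈ P.erase s := min'_mem _ _
    have htP : t ∈ P := mem_of_mem_erase htP'
    have hst : s < t := lt_of_le_of_ne (min'_le _ _ htP) (ne_of_mem_erase htP').symm
    have hbet : ∀ l, s < l → l < t → l ∉ P := by
      intro l h1 h2 h3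
      have := min'_le (P.erase s) l (mem_erase.2 ⟨by omega, h3⟩)
      omega
    refine ⟨s, hPS hsP, t, hPS htP, hst, hP3.trans ?_⟩
    rw [Nat.cast_le]
    refine Set.ncard_le_ncard ?_ (fin_le _ x)
    rintro n ⟨hn, hex⟩
    refine ⟨hn, (hex s (hW s (hPS hsP))).2 hsP, (hex t (hW t (hPS htP))).2 htP, ?_⟩
    intro l h3 h4 h5
    exact hbet l h3 h4 ((hex l (h4.le.trans (hW t (hPS htP)))).1 h5)
  filter_upwards [h2] with x hx
  obtain ⟨B, hB, hBc, h3⟩ := Pool.Agent.Q51.CPR.clique45 (fun s t : ℕ => x ^ (1 - ε) ≤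
      (Set.ncard {n : ℕ | (n : ℝ) ≤ x ∧ (v (φ (min s t)) n).Prime ∧ (v (φ (max s t)) n).Prime ∧
        ∀ l, min s t < l → l < max s t → ¬ (v (φ l) n).Prime} : ℝ)) (by
    intro s t hst
    rwa [max_comm, min_comm]) E
    (fun S hS hSc => by
      obtain ⟨s, hs, t, ht, hst, h3⟩ := hx S (Finset.mem_powersetCard.2 ⟨hS, hSc⟩)
      refine ⟨s, hs, t, ht, hst.ne, ?_⟩
      rwa [max_eq_right hst.le, min_eq_left hst.le])
  refine ⟨B, hB, hBc, fun s hs t ht hst => ?_⟩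
  have := h3 s hs t ht hst.ne
  rwa [max_eq_right hst.le, min_eq_left hst.le] at this

/-- the shift of the variable by one at every scale -/
theorem shift_scale (ε : ℝ) (hε : 0 < ε) : ∃ ε' : ℝ, 0 < ε' ∧ ∀ᶠ x : ℝ in atTop,
    ∀ P Q : ℕ → Prop, (∀ n, P n → Q (n + 1)) →
      (x / 2) ^ (1 - ε') ≤ (Set.ncard {n : ℕ | (n : ℝ) ≤ x / 2 ∧ P n} : ℝ) →
      x ^ (1 - ε) ≤ (Set.ncard {n : ℕ | (n : ℝ) ≤ x ∧ Q n} : ℝ) := by
  set ε' : ℝ := min ε 1 with hε'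
  have hε'0 : 0 < ε' := lt_min hε one_pos
  have hε'1 : ε' ≤ 1 := min_le_right _ _
  refine ⟨ε' / 2, by positivity, ?_⟩
  filter_upwards [growth 1 one_pos ε' hε'0 hε'1, eventually_ge_atTop (2 : ℝ)] with x hx2 hx3
  intro P Q hPQ h3
  have h0 : x ^ (1 - ε) ≤ x ^ (1 - ε') :=
    Real.rpow_le_rpow_of_exponent_le (by linarith) (by linarith [min_le_left ε 1])
  have h4 : (fun m => m + 1) '' {m : ℕ | (m : ℝ) ≤ x / 2 ∧ P m} ⊆ {n : ℕ | (n : ℝ) ≤ x ∧ Q n} := by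
    rintro _ ⟨m, ⟨hm, h5⟩, rfl⟩
    refine ⟨?_, hPQ m h5⟩
    push_cast
    linarith
  have h5 := Set.ncard_le_ncard h4 (fin_le _ x)
  rw [Set.ncard_image_of_injective _ (add_left_injective 1)] at h5
  have h6 : (Set.ncard {m : ℕ | (m : ℝ) ≤ x / 2 ∧ P m} : ℝ) ≤ (Set.ncard {n : ℕ | (n : ℝ) ≤ x ∧ Q n} : ℝ) :=
    Nat.cast_le.2 h5
  push_cast at hx2
  rw [mul_one] at hx2
  linarith

end Pool.Agent.Q51.EX
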