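import Mathlib
import Pool.Agent.Q51.CP.ColQ
import Pool.Agent.H361R2.InfCor2

/-! Partitions of the primes and both kinds of Cunningham orbits. -/

set_option autoImplicit false

namespace Pool.Agent.Q51.EX

open Filter Pool.Agent.H361R2.Inf Pool.Agent.Q51.CP.Col

theorem bit_col {k : ℕ} (P : Fin k → Set ℕ)
    (hP1 : ∀ i, ∀ p ∈ P i, p.Prime) (hP2 : ∀ p : ℕ, p.Prime → ∃ i, p ∈ P i)
    (ε : ℝ) (hε : 0 < ε) : ∃ c : Fin k, ∃ I J : Set ℕ,
      ((∃ᶠ X : ℕ in atTop, (Real.log X) ^ (1 - ε) ≤ ((I ∩ Set.Iio X).ncard : ℝ)) ∨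
        (∃ᶠ X : ℕ in atTop, (Real.log X) ^ (1 - ε) ≤ ((J ∩ Set.Iio X).ncard : ℝ))) ∧
      ∀ M : ℕ, {n : ℕ | ∀ t ≤ M, (2 ^ t * n - 1 ∈ P c ↔ t ∈ I) ∧ (2 ^ t * n + 1 ∈ P c ↔ t ∈ J)}.Infinite := by
  have hpw : ∀ i j : ℕ, (2 : ℤ) ^ i = 2 ^ j → i = j := by
    intro i j h
    have h3 : (2 : ℕ) ^ i = 2 ^ j := by exact_mod_cast h
    exact Nat.pow_right_injective le_rfl h3
  have hB : ∀ i : ℕ, (-1 + 2 * ((i % 2 : ℕ) : ℤ) = -1 ∧ i % 2 = 0) ∨
      (-1 + 2 * ((i % 2 : ℕ) : ℤ) = 1 ∧ i % 2 = 1) := by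
    intro i
    rcases Nat.mod_two_eq_zero_or_one i with h | h
    · left; rw [h]; exact ⟨by norm_num, rfl⟩
    · right; rw [h]; exact ⟨by norm_num, rfl⟩
  obtain ⟨c, K, h0, h1, h2⟩ := quant P hP1 hP2 (fun i => 2 ^ (i / 2)) (fun i => -1 + 2 * ((i % 2 : ℕ) : ℤ))
    (fun _ => one_le_pow₀ (by norm_num))
    (fun i => by
      rcases hB i with ⟨h, -⟩ | ⟨h, -⟩
      · simp only [h]
        exact (isCoprime_one_right (x := (2 : ℤ) ^ (i / 2))).neg_right
      · simp only [h]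
        exact isCoprime_one_right)
    (by
      intro i j hij
      have e1 := hpw _ _ (Prod.ext_iff.1 hij).1
      have e2 : -1 + 2 * ((i % 2 : ℕ) : ℤ) = -1 + 2 * ((j % 2 : ℕ) : ℤ) := (Prod.ext_iff.1 hij).2
      have e3 : i % 2 = j % 2 := by omega
      omega) (ε / 2) (by positivity)
  refine ⟨c, {t | 2 * t ∈ K}, {t | 2 * t + 1 ∈ K}, ?_, fun M => ?_⟩
  · have h3 := h1 (by
      intro p hp
      refine ⟨0, fun i hd => ?_⟩
      have h3 : (p : ℤ) ∣ 1 := by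
        rcases hB i with ⟨h, -⟩ | ⟨h, -⟩
        · rw [h] at hd
          simpa using hd
        · rw [h] at hd
          simpa using hd
      have h4 := Int.natAbs_dvd_natAbs.2 h3
      simp at h4
      exact hp.one_lt.ne' h4)
    rw [← Filter.frequently_or_distrib]
    have hlog : Tendsto (fun X : ℕ => Real.log X) atTop atTop :=
      Real.tendsto_log_atTop.comp tendsto_natCast_atTop_atTop
    have h4 : ∀ᶠ X : ℕ in atTop, 2 * (Real.log X) ^ (1 - ε) ≤ (Real.log X) ^ (1 - ε / 2) := by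
      have h5 : Tendsto (fun y : ℝ => y ^ (ε / 2)) atTop atTop := tendsto_rpow_atTop (by positivity)
      filter_upwards [(h5.comp hlog).eventually_ge_atTop 2, hlog.eventually_gt_atTop 0] with X hX hX0
      have e1 : (Real.log X) ^ (1 - ε / 2) = (Real.log X) ^ (ε / 2) * (Real.log X) ^ (1 - ε) := by
        rw [← Real.rpow_add hX0]
        congr 1
        ring
      rw [e1]
      exact mul_le_mul_of_nonneg_right hX (by positivity)
    refine (h3.and_eventually h4).mono ?_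
    rintro X ⟨hX, hX2⟩
    have hsub : K ∩ Set.Iio X ⊆ ((fun t => 2 * t) '' ({t | 2 * t ∈ K} ∩ Set.Iio X)) ∪
        ((fun t => 2 * t + 1) '' ({t | 2 * t + 1 ∈ K} ∩ Set.Iio X)) := by
      rintro i ⟨hi, hiX⟩
      rw [Set.mem_Iio] at hiX
      rcases Nat.even_or_odd' i with ⟨t, rfl | rfl⟩
      · exact Or.inl ⟨t, ⟨hi, by rw [Set.mem_Iio]; omega⟩, rfl⟩
      · exact Or.inr ⟨t, ⟨hi, by rw [Set.mem_Iio]; omega⟩, rfl⟩
    have hf : ∀ S : Set ℕ, (S ∩ Set.Iio X).Finite := fun S => (Set.finite_Iio X).subset Set.inter_subset_right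
    have h5 : (K ∩ Set.Iio X).ncard ≤ ({t | 2 * t ∈ K} ∩ Set.Iio X).ncard +
        ({t | 2 * t + 1 ∈ K} ∩ Set.Iio X).ncard := by
      refine (Set.ncard_le_ncard hsub (((hf _).image _).union ((hf _).image _))).trans ?_
      refine (Set.ncard_union_le _ _).trans ?_
      exact Nat.add_le_add (Set.ncard_image_le (hf _)) (Set.ncard_image_le (hf _))
    have h6 : ((K ∩ Set.Iio X).ncard : ℝ) ≤ (({t | 2 * t ∈ K} ∩ Set.Iio X).ncard : ℝ) +
        (({t | 2 * t + 1 ∈ K} ∩ Set.Iio X).ncard : ℝ) := by exact_mod_cast h5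
    by_contra hcon
    rw [not_or, not_le, not_le] at hcon
    linarith [hcon.1, hcon.2]
  · have h3 := h2 ((Finset.range (2 * M + 2)).image
      (fun i : ℕ => ((2 : ℤ) ^ (i / 2), -1 + 2 * ((i % 2 : ℕ) : ℤ)))) (by
      intro f hf
      obtain ⟨j, _, rfl⟩ := Finset.mem_image.1 hf
      exact one_le_pow₀ (by norm_num))
    refine h3.mono ?_
    intro n hn t ht
    have key : ∀ i : ℕ, i < 2 * M + 2 → (val ((2 : ℤ) ^ (i / 2), -1 + 2 * ((i % 2 : ℕ) : ℤ)) n ∈ P c ↔ i ∈ K) := by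
      intro i hi
      have h4 := hn ((2 : ℤ) ^ (i / 2), -1 + 2 * ((i % 2 : ℕ) : ℤ))
        (Finset.mem_image.2 ⟨i, Finset.mem_range.2 hi, rfl⟩)
      rw [h4]
      constructor
      · rintro ⟨j, hj, hji⟩
        have e1 := hpw _ _ (Prod.ext_iff.1 hji).1
        have e2 : -1 + 2 * ((j % 2 : ℕ) : ℤ) = -1 + 2 * ((i % 2 : ℕ) : ℤ) := (Prod.ext_iff.1 hji).2
        have e3 : j = i := by omega
        rwa [← e3]
      · exact fun h => ⟨i, h, rfl⟩
    constructor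
    · have h5 := key (2 * t) (by omega)
      have e1 : val ((2 : ℤ) ^ (2 * t / 2), -1 + 2 * ((2 * t % 2 : ℕ) : ℤ)) n = 2 ^ t * n - 1 := by
        unfold val
        rw [show 2 * t / 2 = t by omega, show 2 * t % 2 = 0 by omega]
        simp only
        have e2 : ((2 ^ t * n : ℕ) : ℤ) = 2 ^ t * (n : ℤ) := by push_cast; rfl
        push_cast
        omega
      rw [e1] at h5
      exact h5
    · have h5 := key (2 * t + 1) (by omega)
      have e1 : val ((2 : ℤ) ^ ((2 * t + 1) / 2), -1 + 2 * (((2 * t + 1) % 2 : ℕ) : ℤ)) n = 2 ^ t * n + 1 := by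
        unfold val
        rw [show (2 * t + 1) / 2 = t by omega, show (2 * t + 1) % 2 = 1 by omega]
        simp only
        have e2 : ((2 ^ t * n : ℕ) : ℤ) = 2 ^ t * (n : ℤ) := by push_cast; rfl
        push_cast
        omega
      rw [e1] at h5
      exact h5

end Pool.Agent.Q51.EX
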