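import Mathlib
import Pool.Agent.H358R5.MainC
import Pool.Agent.Q51.EX.Gen

/-! Many primes among linear forms. -/

set_option autoImplicit false

namespace Pool.Agent.Q51.EX

open Finset Filter

theorem dhls_many (m K : ℕ) (hm : 2 ≤ m) (hK : 4 * (m : ℝ) + 29 / 50 ≤ Real.log K) :
    DHLs K (m + 1) := fun a b ha hne hloc ε hε =>
  Pool.Agent.H358R5.forms_many m K hm hK a b ha hne hloc ε hε


end Pool.Agent.Q51.EX
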