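import Mathlib
import Pool.Agent.Q51.EX.Seq
import Pool.Agent.Q51.EX.DMany
import Pool.Agent.Q51.CP.Count

/-! The number of the exact patterns. -/

set_option autoImplicit false

namespace Pool.Agent.Q51.EX

open Finset Filter Pool.Agent.Q51.CP

/-- the number of the exact patterns -/
theorem seq_complexity (c : ℝ) (hc : c < 1 / 16) : ∃ L₀ : ℕ, ∀ φ : ℕ → ℕ × ℕ, Seq φ →
    ∀ E : Finset ℕ, L₀ ≤ E.card →
      Real.exp (c * Real.log E.card ^ 2) ≤ (Set.ncard {P : Finset ℕ | P ⊆ E ∧ ∀ W : ℕ, Often (Ex φ P W)} : ℝ) := by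
  classical
  obtain ⟨L₀, hL₀⟩ := params c hc
  refine ⟨L₀, fun φ hφ E hE => ?_⟩
  obtain ⟨r, K, hr3, hexp, hrK, hKL, hmain⟩ := hL₀ E.card hE
  set PP : Finset (Finset ℕ) := E.powerset.filter (fun P => r ≤ P.card ∧ ∀ W : ℕ, Often (Ex φ P W)) with hPP
  have hsub : ∀ P ∈ PP, ∃ R ⊆ P, R.card = r := by
    intro P hP
    exact Finset.exists_subset_card_eq (mem_filter.1 hP).2.1
  choose! ρ hρ1 hρ2 using hsub
  have h1 := count_good E (fun R => R ∈ PP.image ρ) r K hrK hKL (by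
    intro T hT hTK
    have hpos : (0 : ℝ) < (K : ℝ) := lt_of_lt_of_le (Real.exp_pos _) hexp
    have hD := dhls_many (r - 1) K (by omega) ((Real.le_log_iff_exp_le hpos).2 hexp)
    obtain ⟨P, hPT, hPM, hP⟩ := seq_fixed hD hφ T hTK
    have hPPP : P ∈ PP := by
      rw [hPP, mem_filter, mem_powerset]
      exact ⟨hPT.trans hT, by omega, hP⟩
    exact ⟨ρ P, (hρ1 P hPPP).trans hPT, hρ2 P hPPP, mem_image.2 ⟨P, hPPP, rfl⟩⟩)
  have h2 : ((E.powersetCard r).filter (fun R => R ∈ PP.image ρ)).card ≤ PP.card := by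
    refine (card_le_card ?_).trans (card_image_le (s := PP) (f := ρ))
    intro R hR
    exact (mem_filter.1 hR).2
  have h3 : (E.card.choose r : ℝ) ≤ (PP.card : ℝ) * (K.choose r : ℝ) := by
    have h4 : E.card.choose r ≤ PP.card * K.choose r := h1.trans (Nat.mul_le_mul_right _ h2)
    exact_mod_cast h4
  have h4 : (0 : ℝ) < (K.choose r : ℝ) := by exact_mod_cast Nat.choose_pos hrK
  have h5 := le_of_mul_le_mul_right (hmain.trans h3) h4
  refine h5.trans ?_
  rw [Nat.cast_le, ← Set.ncard_coe_finset]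
  refine Set.ncard_le_ncard ?_ ((E.powerset.finite_toSet).subset fun P hP => by
    simpa using hP.1)
  intro P hP
  rw [Finset.mem_coe, hPP, mem_filter, mem_powerset] at hP
  exact ⟨hP.1, hP.2.2⟩


end Pool.Agent.Q51.EX
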