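import Mathlib
import Pool.Agent.Y826.ZG.Final
import Pool.Agent.Q51.EX.Gen

/-! Two primes among 45 linear forms. -/

set_option autoImplicit false

namespace Pool.Agent.Q51.EX

open Finset Filter

theorem dhls45 : DHLs 45 2 := by
  classical
  intro a b ha hne hloc ε hε
  have h1 := Pool.Agent.Y826.ZG.dhl45L a b ⟨fun i => ha i, hne, hloc⟩ ε hε
  filter_upwards [h1, eventually_ge_atTop (0 : ℝ)] with x hx hx0
  refine hx.trans ?_
  rw [Nat.cast_le, ← Set.ncard_coe_finset]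
  refine Set.ncard_le_ncard ?_ ((Set.finite_Iic ⌊x⌋₊).subset fun n hn => Nat.le_floor hn.2.1)
  intro n hn
  rw [Finset.mem_coe] at hn
  unfold Pool.Agent.H95R2.BG.LF.goodL at hn
  rw [Finset.mem_filter, Finset.mem_Icc] at hn
  obtain ⟨⟨hn1, hn2⟩, i, j, hij, hi, hj⟩ := hn
  refine ⟨hn1, (Nat.le_floor_iff hx0).1 hn2, ?_⟩
  have h2 : ({i, j} : Set (Fin 45)) ⊆ {i : Fin 45 | (a i * n + b i).Prime} := by
    rintro k (rfl | rfl)
    · exact hi
    · exact hj
  have h3 := Set.ncard_le_ncard h2 (Set.toFinite _)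
  rwa [Set.ncard_pair hij] at h3


end Pool.Agent.Q51.EX
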